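import Mathlib

open Polynomial

namespace Pool.Agent.Results.MP_0950f1_nt.Counter

/-- The sequence `a(1) = N`, `a(n) = a(n-1) - gcd(a(n-1), P(n))` (the value at `0` is unused). -/
def a (P : ℤ[X]) (N : ℕ) : ℕ → ℤ
  | 0 => N
  | 1 => N
  | n + 2 => a P N (n + 1) - Int.gcd (a P N (n + 1)) (P.eval ((n + 2 : ℕ) : ℤ))

lemma step (P : ℤ[X]) (hP : ∀ n : ℤ, 2 ∣ P.eval n) (N : ℕ) (hN : 1 ≤ N) (n : ℕ) :
    (∃ m, 1 ≤ m ∧ m ≤ n + 2 ∧ a P N m = 0) ∨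
      (0 < a P N (n + 2) ∧ 2 ∣ a P N (n + 2) ∧ a P N (n + 2) + 2 * n + 1 ≤ N) := by
  have key : ∀ x y : ℤ, 0 < x → 2 ∣ y → 0 ≤ x - Int.gcd x y ∧ 2 ∣ x - Int.gcd x y ∧
      x - Int.gcd x y + 1 ≤ x ∧ (2 ∣ x → x - Int.gcd x y + 2 ≤ x) := by
    intro x y hx hy
    have h1 : ((Int.gcd x y : ℕ) : ℤ) ∣ x := Int.gcd_dvd_left x y
    have h2 := Int.le_of_dvd hx h1
    have h3 : 0 < Int.gcd x y := Int.gcd_pos_of_ne_zero_left _ hx.ne'
    have h4 : 2 ∣ x → (2 : ℤ) ∣ Int.gcd x y := fun h => Int.dvd_coe_gcd h hy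
    have h5 : (2 : ℤ) ∣ Int.gcd x y → 2 ∣ x := fun h => h.trans h1
    omega
  induction n with
  | zero =>
    have := key N (P.eval ((0 + 2 : ℕ) : ℤ)) (by omega) (hP _)
    have e : a P N (0 + 2) = N - Int.gcd N (P.eval ((0 + 2 : ℕ) : ℤ)) := rfl
    by_cases h : a P N (0 + 2) = 0
    · exact Or.inl ⟨_, by omega, le_rfl, h⟩
    · right; rw [← e] at this; omega
  | succ n ih =>
    rcases ih with ⟨m, h1, h2, h3⟩ | ⟨h1, h2, h3⟩
    · exact Or.inl ⟨m, h1, by omega, h3⟩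
    · have := key _ (P.eval ((n + 1 + 2 : ℕ) : ℤ)) h1 (hP _)
      have e : a P N (n + 1 + 2) =
        a P N (n + 2) - Int.gcd (a P N (n + 2)) (P.eval ((n + 1 + 2 : ℕ) : ℤ)) := rfl
      by_cases h : a P N (n + 1 + 2) = 0
      · exact Or.inl ⟨_, by omega, le_rfl, h⟩
      · right; rw [← e] at this; omega

/-- For the irreducible polynomial `P = x^2 + x + 2` the first zero `f(N)` of the sequence
satisfies `f(N) ≤ (1 - δ) N` for every `δ < 1/2` and all large `N`. -/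
theorem result :
    ∃ P : ℤ[X], Irreducible P ∧ (∀ n : ℤ, 1 ≤ n → 0 ≤ P.eval n) ∧
      Filter.Tendsto (fun n : ℕ => P.eval (n : ℤ)) Filter.atTop Filter.atTop ∧
      ∀ δ : ℝ, δ < 1 / 2 → ∃ N₀ : ℕ, ∀ N : ℕ, N₀ ≤ N →
        ∃ f : ℕ, IsLeast {n : ℕ | 1 ≤ n ∧ a P N n = 0} f ∧ (f : ℝ) ≤ (1 - δ) * N := by
  classical
  have hev : ∀ n : ℤ, (X ^ 2 + X + 2 : ℤ[X]).eval n = n ^ 2 + n + 2 := by simp
  refine ⟨X ^ 2 + X + 2, ?_, fun n hn => by rw [hev]; positivity, ?_, fun δ hδ => ?_⟩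
  · have hm : (X ^ 2 + X + 2 : ℤ[X]).Monic := by monicity!
    have hd : (X ^ 2 + X + 2 : ℤ[X]).natDegree = 2 := by compute_degree!
    rw [hm.irreducible_iff_roots_eq_zero_of_degree_le_three (by omega) (by omega),
      Multiset.eq_zero_iff_forall_notMem]
    intro n hn
    rw [mem_roots hm.ne_zero, IsRoot.def, hev] at hn
    nlinarith [sq_nonneg (2 * n + 1)]
  · refine Filter.tendsto_atTop_mono (fun n => ?_) tendsto_natCast_atTop_atTop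
    rw [hev]
    nlinarith [sq_nonneg (n : ℤ)]
  · obtain ⟨N₀, hN₀⟩ := exists_nat_ge (2 / (1 / 2 - δ))
    refine ⟨N₀ + 1, fun N hN => ?_⟩
    have hP : ∀ n : ℤ, 2 ∣ (X ^ 2 + X + 2 : ℤ[X]).eval n := by
      intro n
      rw [hev]
      have := (Int.even_mul_succ_self n).two_dvd
      exact (by linear_combination (exp := 1) 0 : n ^ 2 + n + 2 = n * (n + 1) + 2) ▸
        dvd_add this dvd_rfl
    rcases step _ hP N (by omega) (N / 2) with ⟨m, h1, h2, h3⟩ | h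
    · have hex : ∃ n, 1 ≤ n ∧ a (X ^ 2 + X + 2) N n = 0 := ⟨m, h1, h3⟩
      refine ⟨Nat.find hex, ⟨Nat.find_spec hex, fun n hn => Nat.find_min' hex hn⟩, ?_⟩
      have h4 : Nat.find hex ≤ m := Nat.find_min' hex ⟨h1, h3⟩
      have h5 : ((2 * Nat.find hex : ℕ) : ℝ) ≤ (N + 4 : ℕ) := by exact_mod_cast (by omega)
      have h6 : ((N₀ + 1 : ℕ) : ℝ) ≤ N := by exact_mod_cast hN
      rw [div_le_iff₀ (by linarith)] at hN₀
      push_cast at h5 h6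
      nlinarith
    · omega

end Pool.Agent.Results.MP_0950f1_nt.Counter
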